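import Pool.Agent.Q25.PLP.Stm

/-!
# Layer cake (step LC of the project PLP)
-/

set_option autoImplicit false

open Finset MeasureTheory Pool.Agent.Q25.PLP

namespace Pool.Agent.Q241.PLPLC

theorem int_ind (a R : ℝ) (h0 : 0 ≤ a) (hR : a ≤ R) :
    ∫ θ in (0:ℝ)..R, (if θ < a then (1:ℝ) else 0) = a := by
  have h1 : (fun θ : ℝ => if θ < a then (1:ℝ) else 0) = (Set.Iio a).indicator (fun _ => (1:ℝ)) := by
    funext θ
    by_cases h : θ < a
    · rw [Set.indicator_of_mem (by exact h), if_pos h]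
    · rw [Set.indicator_of_notMem (by exact h), if_neg h]
  have h2 : Set.Iio a ∩ Set.Ioc 0 R = Set.Ioo 0 a := by
    ext θ
    constructor
    · rintro ⟨h3, h4⟩
      exact ⟨h4.1, h3⟩
    · rintro ⟨h3, h4⟩
      exact ⟨h4, h3, h4.le.trans hR⟩
  rw [intervalIntegral.integral_of_le (h0.trans hR), h1, integral_indicator measurableSet_Iio,
    Measure.restrict_restrict measurableSet_Iio, h2, setIntegral_const, Real.volume_real_Ioo_of_le h0]
  simp

theorem intble (a R : ℝ) :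
    IntervalIntegrable (fun θ : ℝ => if θ < a then (1:ℝ) else 0) volume 0 R := by
  apply AntitoneOn.intervalIntegrable
  intro x _ y _ hxy
  show (if y < a then (1:ℝ) else 0) ≤ (if x < a then (1:ℝ) else 0)
  by_cases h : y < a
  · rw [if_pos h, if_pos (hxy.trans_lt h)]
  · rw [if_neg h]
    split_ifs <;> norm_num

theorem card_eq {Z : Type} [Fintype Z] (ζ : Z → ℝ) (θ : ℝ) :
    ((univ.filter (fun z => θ < ζ z)).card : ℝ) = ∑ z, (if θ < ζ z then (1:ℝ) else 0) := by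
  rw [Finset.card_filter]
  push_cast
  rfl

theorem sum_eq {Z : Type} [Fintype Z] (ζ : Z → ℝ) (R : ℝ) (h0 : ∀ z, 0 ≤ ζ z)
    (hR : ∀ z, ζ z ≤ R) :
    ∫ θ in (0:ℝ)..R, ((univ.filter (fun z => θ < ζ z)).card : ℝ) = ∑ z, ζ z := by
  have h1 : (fun θ : ℝ => ((univ.filter (fun z => θ < ζ z)).card : ℝ)) =
      fun θ => ∑ z, (if θ < ζ z then (1:ℝ) else 0) := by
    funext θ
    exact card_eq ζ θ
  rw [h1, intervalIntegral.integral_finsetSum (fun z _ => intble (ζ z) R)]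
  exact Finset.sum_congr rfl (fun z _ => int_ind (ζ z) R (h0 z) (hR z))

theorem sum_intble {Z : Type} [Fintype Z] (ζ : Z → ℝ) (R : ℝ) :
    IntervalIntegrable (fun θ : ℝ => ((univ.filter (fun z => θ < ζ z)).card : ℝ)) volume 0 R := by
  have h1 : (fun θ : ℝ => ((univ.filter (fun z => θ < ζ z)).card : ℝ)) =
      ∑ z, (fun θ : ℝ => if θ < ζ z then (1:ℝ) else 0) := by
    funext θ
    rw [card_eq ζ θ, Finset.sum_apply]
  rw [h1]
  exact IntervalIntegrable.sum _ (fun z _ => intble (ζ z) R)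

theorem t_LC : S_LC := by
  intro Z Y _ _ ζ ξ κ hκ hζ hξ h
  set R : ℝ := ∑ z, ζ z + ∑ l, ξ l with hR
  have h1 : ∀ z, ζ z ≤ R := by
    intro z
    have h2 : ζ z ≤ ∑ z, ζ z := Finset.single_le_sum (fun i _ => hζ i) (mem_univ z)
    have h3 : 0 ≤ ∑ l, ξ l := Finset.sum_nonneg (fun i _ => hξ i)
    linarith
  have h2 : ∀ l, ξ l ≤ R := by
    intro l
    have h2 : ξ l ≤ ∑ l, ξ l := Finset.single_le_sum (fun i _ => hξ i) (mem_univ l)
    have h3 : 0 ≤ ∑ z, ζ z := Finset.sum_nonneg (fun i _ => hζ i)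
    linarith
  have h3 : 0 ≤ R := by
    have h3 : 0 ≤ ∑ z, ζ z := Finset.sum_nonneg (fun i _ => hζ i)
    have h4 : 0 ≤ ∑ l, ξ l := Finset.sum_nonneg (fun i _ => hξ i)
    linarith
  rw [← sum_eq ζ R hζ h1, ← sum_eq ξ R hξ h2, ← intervalIntegral.integral_const_mul]
  apply intervalIntegral.integral_mono_on h3 ((sum_intble ζ R).const_mul κ) (sum_intble ξ R)
  intro θ hθ
  exact h θ hθ.1

end Pool.Agent.Q241.PLPLC
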